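import Mathlib
import Pool.Agent.X255.RH.Main
import Pool.Agent.Y776.Cv.Fix
import Pool.Agent.H46AR.Base

/-!
# The elliptic analogue of Schanuel's conjecture at all roots of almost all integral polynomials

Let `Ω_1, …, Ω_q` be arbitrary lattices in `ℂ`, pairwise without homomorphisms, and let `p_1, …, p_n` be ANY analytic
functions on a connected open set `V` of the plane, each with values outside one of the lattices, its type, such that for
each lattice no nontrivial combination of the functions of this type with coefficients in the ring of multipliers of the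
lattice is constant. We consider the numbers `p_i(x)`, `℘(p_i(x))`, `ζ(p_i(x))` at all the roots `x` in `V` of an
integral polynomial of degree `g`; so `x` runs through algebraic numbers of degree `g` with all their conjugates. The
elliptic analogue of Schanuel's conjecture for the `g n` points `p_i(x)` says that (in general) at least `2 g n` of the
`3 g n` numbers are algebraically independent, if the invariants of the lattices are algebraic.

We prove: `2 n` of the `3 n` functions can be fixed such that for almost all polynomials with coefficients at most `T`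
their values at all roots together satisfy no algebraic relation over number fields whose degree and whose field degree
is at most `ω(T)` and whose height is at most `T ^ ω(T)`, where `ω(T) → ∞`; the coefficients of the relations may contain
arbitrary given complex numbers `ξ_0, ξ_1, …`, for instance the monomials in the invariants and in the periods. The roots
are all those in `V` if the complement of `V` is locally finite, or contained in the real line, and so on, and in general
the roots in sets `K_1, K_2, …` which can be increasing compact sets with the union `V`. If all `p_i` are entire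
functions, for instance `p_i(x) = c_i x` with `c_i` independent over the field of multipliers, only the roots with some
`p_i(x)` in the lattice are omitted. There is a power saving for the polynomials whose roots are in a compact position.

The starting file `AnalyticFamilies` has the points of number fields, of degree `ω(T)`, one at a time; here all
conjugates occur together.

The proof is an application of `Pool.Agent.X255.RH.main_all`, `main_eps` (values of algebraically independent functions
at the roots of almost all polynomials) and of `Pool.Agent.Y776.Cv.fix_sub` (Ax's theorem for curves).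
-/

set_option autoImplicit false

open Polynomial Filter Topology NumberField
open scoped PeriodPair

namespace Pool.Agent.Results.MP_2ad15a_nt.AllRootsOfPolynomials

/-- The integral vectors `a = (a_0, …, a_g)` with `|a_i| ≤ T`. -/
noncomputable def box (g T : ℕ) : Finset (Fin (g + 1) → ℤ) := Fintype.piFinset fun _ => Finset.Icc (-(T : ℤ)) (T : ℤ)

/-- The polynomial `a_0 + a_1 x + … + a_g x^g`. -/
noncomputable def poly {g : ℕ} (a : Fin (g + 1) → ℤ) : ℂ[X] := ∑ i, C (a i : ℂ) * X ^ (i : ℕ)

/-- The Weierstrass `ζ`-function of the lattice `L` (the term of `l = 0` is `1 / z`). -/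
noncomputable def zeta (L : PeriodPair) (z : ℂ) : ℂ := ∑' l : L.lattice, (1 / (z - l) + 1 / l + z / l ^ 2)

/-- There is no homomorphism except `0` from the elliptic curve `ℂ / L` to `ℂ / L'`. -/
def NoHom (L L' : PeriodPair) : Prop := ∀ α : ℂ, (∀ w ∈ L.lattice, α * w ∈ L'.lattice) → α = 0

/-- For each type `c` no nontrivial combination of the `p_i` of this type is constant on `V`, whose coefficients multiply
the lattice `Ω_c` into itself. -/
def Independent {n q : ℕ} (V : Set ℂ) (Ω : Fin q → PeriodPair) (ty : Fin n → Fin q) (p : Fin n → ℂ → ℂ) : Prop :=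
  ∀ (c : Fin q) (a : Fin n → ℂ) (b : ℂ), (∀ i, ∀ w ∈ (Ω c).lattice, a i * w ∈ (Ω c).lattice) →
    (∀ i, ty i ≠ c → a i = 0) → (∀ z ∈ V, ∑ i, a i * p i z = b) → a = 0

/-- An analytic family `p` of `n`-tuples of complex numbers over the connected open set `V` of the plane, the `i`-th one
outside the lattice `Ω (ty i)`, independent in the sense above. -/
structure Curve {n q : ℕ} (V : Set ℂ) (Ω : Fin q → PeriodPair) (ty : Fin n → Fin q) (p : Fin n → ℂ → ℂ) : Prop where
  isOpen : IsOpen V
  isPreconnected : IsPreconnected V
  nonempty : V.Nonempty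
  analytic : ∀ i, AnalyticOnNhd ℂ (p i) V
  notMem : ∀ i, ∀ z ∈ V, p i z ∉ (Ω (ty i)).lattice
  independent : Independent V Ω ty p

/-- The names of the functions. -/
inductive Name (n : ℕ) : Type
  | p : Fin n → Name n
  | zeta : Fin n → Name n
  | wp : Fin n → Name n

/-- The values of the functions `p_i`, `ζ(p_i)`, `℘(p_i)` at `z`. -/
noncomputable def value {n q : ℕ} (Ω : Fin q → PeriodPair) (ty : Fin n → Fin q) (p : Fin n → ℂ → ℂ) : Name n → ℂ → ℂ
  | Name.p i, z => p i z
  | Name.zeta i, z => zeta (Ω (ty i)) (p i z)
  | Name.wp i, z => ℘[Ω (ty i)] (p i z)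

/-- The numbers `x q` satisfy no relation of degree at most `k` in each of them with coefficients `∑_{b < k} ξ_b c_b`,
where the `c_b` are integers of a number field of degree at most `k` all of whose conjugates are at most `T ^ k`, except
the relations all of whose coefficients vanish. -/
def NoRelation {Q : Type} [Fintype Q] [DecidableEq Q] (ξ : ℕ → ℂ) (k : ℕ) (T : ℝ) (x : Q → ℂ) : Prop :=
  ∀ (F : Type) [Field F] [NumberField F], Module.finrank ℚ F ≤ k → ∀ (io : F →+* ℂ)
    (c : (Q → Fin (k + 1)) → Fin k → 𝓞 F), (∀ l b (φ : F →+* ℂ), ‖φ (c l b : F)‖ ≤ T ^ k) →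
    ∑ l, (∑ b : Fin k, ξ b * io (c l b : F)) * ∏ q, x q ^ (l q : ℕ) = 0 → ∀ l, ∑ b : Fin k, ξ b * io (c l b : F) = 0

/-- The roots in `K` of the polynomial with the coefficients `a`. -/
noncomputable def roots {g : ℕ} (K : Set ℂ) (a : Fin (g + 1) → ℤ) : Finset ℂ := by
  classical exact (poly a).roots.toFinset.filter fun z => z ∈ K

/-- There is no relation between the values of the functions `f` at all the roots in `K` of the polynomial with the
coefficients `a` together. -/
def Free {g d : ℕ} (K : Set ℂ) (f : Fin d → ℂ → ℂ) (ξ : ℕ → ℂ) (k : ℕ) (T : ℝ) (a : Fin (g + 1) → ℤ) : Prop :=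
  NoRelation ξ k T fun q : {x // x ∈ roots K a} × Fin d => f q.2 q.1

/-- The polynomial with the coefficients `a` has degree `g` and simple roots, and there is no relation between the values
of the functions `f` at all its roots in `K` together. -/
def Good {g d : ℕ} (K : Set ℂ) (f : Fin d → ℂ → ℂ) (ξ : ℕ → ℂ) (k : ℕ) (T : ℝ) (a : Fin (g + 1) → ℤ) : Prop :=
  a (Fin.last g) ≠ 0 ∧ (poly a).Separable ∧ Free K f ξ k T a

/-- The points of `K` are near the complement of `V` only in the neighbourhood of points of a locally finite set `S`, or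
of the real line: for `z` in `K` and `w` outside `V` the distance is at least the distance of `z` to some point of `S`,
or at least `|im z| ≠ 0`, or at least `c`. For instance `K` is a compact subset of `V`, or `K = V` is the complement of a
locally finite set, or the upper half-plane, or the complement of closed subset of the real line. -/
def Tame (K V : Set ℂ) : Prop :=
  ∃ (S : Set ℂ) (c : ℝ), 0 < c ∧ (∀ R : ℝ, (S ∩ Metric.closedBall 0 R).Finite) ∧
    ∀ z ∈ K, ∀ w, w ∉ V → (∃ p ∈ S, ‖z - p‖ ≤ ‖z - w‖) ∨ (z.im ≠ 0 ∧ |z.im| ≤ ‖z - w‖) ∨ c ≤ ‖z - w‖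

/-- The polynomial with the coefficients `a` has degree `g` and simple roots, its roots are of absolute value at most `R`
and at distance at least `η` from each other, and the roots in `K` are at distance at least `η` from the complement of
`V`. -/
def Position {g : ℕ} (K V : Set ℂ) (R η : ℝ) (a : Fin (g + 1) → ℤ) : Prop :=
  a (Fin.last g) ≠ 0 ∧ (poly a).Separable ∧ ∀ z, (poly a).eval z = 0 → ‖z‖ ≤ R ∧
    (∀ w, (poly a).eval w = 0 → w ≠ z → η ≤ ‖z - w‖) ∧ (z ∈ K → Metric.ball z η ⊆ V)

open scoped Classical in
/-- For almost all integral polynomials of degree `g` there is no relation between the values of the functions `f` at all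
the roots in the sets `K` together: there is `ω(T) → ∞` such that among the `(2 T + 1) ^ (g + 1)` polynomials with
coefficients at most `T` at most the proportion `1 / ω(T)` is not good for the set `K (ω T)`. -/
def AlmostAll (g : ℕ) {d : ℕ} (K : ℕ → Set ℂ) (f : Fin d → ℂ → ℂ) (ξ : ℕ → ℂ) : Prop :=
  ∃ ω : ℕ → ℕ, Tendsto ω atTop atTop ∧ Monotone ω ∧ ∀ T : ℕ,
    ω T * ((box g T).filter fun a => ¬ Good (K (ω T)) f ξ (ω T) T a).card ≤ (box g T).card

open scoped Classical in
/-- For the polynomials with roots in a compact position there is a power saving. -/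
def PowerSaving (g : ℕ) {d : ℕ} (K V : Set ℂ) (f : Fin d → ℂ → ℂ) (ξ : ℕ → ℂ) : Prop :=
  ∀ (k : ℕ) (R η ε : ℝ), 0 < η → 0 < ε → ∃ C : ℝ, ∀ T : ℕ, 1 ≤ T →
    (((box g T).filter fun a => Position K V R η a ∧ ¬ Free K f ξ k T a).card : ℝ) ≤ C * (T : ℝ) ^ ((g : ℝ) + ε)

section
variable {n q : ℕ} {V : Set ℂ} {Ω : Fin q → PeriodPair} {ty : Fin n → Fin q} {p : Fin n → ℂ → ℂ}

/-- the names in the library -/
def nm : Pool.Agent.Y776.Cv.Nf n 0 → Name n :=
  Sum.elim Fin.elim0 (Sum.elim Fin.elim0 (Sum.elim Name.p (Sum.elim Name.zeta Name.wp)))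

theorem nm_inj : Function.Injective (nm : Pool.Agent.Y776.Cv.Nf n 0 → Name n) := by
  rintro (a | a | a | a | a) (b | b | b | b | b) hab
  all_goals first
    | exact a.elim0
    | exact b.elim0
    | (simp only [nm, Sum.elim_inl, Sum.elim_inr, Name.p.injEq, Name.zeta.injEq, Name.wp.injEq] at hab
       rw [hab])
    | (simp [nm] at hab)

theorem nm_val (a : Pool.Agent.Y776.Cv.Nf n 0) :
    value Ω ty p (nm a) = Pool.Agent.Y776.Cv.yf Ω ty p (Fin.elim0 : Fin 0 → ℂ → ℂ) a := by
  rcases a with a | a | a | a | a
  · exact a.elim0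
  · exact a.elim0
  all_goals rfl

theorem Curve.fx (h : Curve V Ω ty p) (hΩ : ∀ c c', c ≠ c' → NoHom (Ω c) (Ω c')) :
    Pool.Agent.Y776.Cv.FxM V Ω ty p (Fin.elim0 : Fin 0 → ℂ → ℂ) where
  isOpen := h.isOpen
  conn := h.isPreconnected
  ni := hΩ
  ua := h.analytic
  un := h.notMem
  ui := h.independent
  la := fun k => k.elim0
  li := fun _ _ _ => funext fun k => k.elim0

theorem main (hn : 0 < n) (h : Curve V Ω ty p) (hΩ : ∀ c c', c ≠ c' → NoHom (Ω c) (Ω c')) :
    ∃ e : Fin (2 * n) → Name n, Function.Injective e ∧
      (∀ (g : ℕ), 0 < g → ∀ (ξ : ℕ → ℂ) (K : ℕ → Set ℂ), (∀ k, Tame (K k) V) →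
        AlmostAll g K (fun j => value Ω ty p (e j)) ξ) ∧
      ∀ (g : ℕ), 0 < g → ∀ (ξ : ℕ → ℂ) (K : Set ℂ), PowerSaving g K V (fun j => value Ω ty p (e j)) ξ := by
  obtain ⟨e0, he0, hI0⟩ := Pool.Agent.Y776.Cv.fix_sub (h.fx hΩ) (by omega) h.nonempty
  have h0 : 2 * n = 0 + 2 * n := by ring
  obtain ⟨e, he, hI⟩ : ∃ e : Fin (2 * n) → Pool.Agent.Y776.Cv.Nf n 0, Function.Injective e ∧
      ∀ t ∈ V, Pool.Agent.Y124.LocInd (fun k => Pool.Agent.Y776.Cv.yf Ω ty p (Fin.elim0 : Fin 0 → ℂ → ℂ) (e k)) t := by
    rw [h0]
    exact ⟨e0, he0, hI0⟩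
  have hI' : Pool.Agent.X255.RH.Indep V fun j => value Ω ty p (nm (e j)) := by
    have h1 : (fun j => value Ω ty p (nm (e j))) =
        fun j => Pool.Agent.Y776.Cv.yf Ω ty p (Fin.elim0 : Fin 0 → ℂ → ℂ) (e j) := by
      funext j
      exact nm_val (e j)
    rw [h1]
    exact Pool.Agent.H46AR.indep_of_loc h.isOpen h.nonempty hI
  have han : ∀ j, AnalyticOnNhd ℂ (value Ω ty p (nm (e j))) V := by
    intro j
    rw [nm_val]
    exact Pool.Agent.Y776.Cv.yf_an (h.fx hΩ) (e j)
  refine ⟨fun j => nm (e j), nm_inj.comp he, fun g hg ξ K hK => ?_, fun g hg ξ K k R η ε hη hε => ?_⟩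
  · exact Pool.Agent.X255.RH.main_all hg h.isPreconnected h.isOpen K hK han hI' ξ
  · exact Pool.Agent.X255.RH.main_eps hg h.isPreconnected h.isOpen han hI' K ξ k R η ε hη hε

theorem nonconst (h : Independent Set.univ Ω ty p) (i : Fin n) (b : ℂ) : ∃ z, p i z ≠ b := by
  classical
  by_contra hcon
  push Not at hcon
  have h1 := h (ty i) (Pi.single i 1) b (fun j w hw => by
    by_cases hj : j = i
    · rw [hj, Pi.single_eq_same, one_mul]
      exact hw
    · rw [Pi.single_eq_of_ne hj, zero_mul]
      exact zero_mem _) (fun j hj => by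
    rw [Pi.single_eq_of_ne]
    rintro rfl
    exact hj rfl) (fun z _ => by
    rw [Finset.sum_eq_single i]
    · rw [Pi.single_eq_same, one_mul, hcon]
    · intro j _ hj
      rw [Pi.single_eq_of_ne hj, zero_mul]
    · intro hj
      exact absurd (Finset.mem_univ i) hj)
  have h2 := congrFun h1 i
  rw [Pi.single_eq_same] at h2
  exact one_ne_zero h2

theorem fin_poles (hp : ∀ i, Differentiable ℂ (p i)) (h : Independent Set.univ Ω ty p) (R : ℝ) :
    ({z | ∀ i, p i z ∉ (Ω (ty i)).lattice}ᶜ ∩ Metric.closedBall 0 R).Finite :=
  Pool.Agent.H46AR.poles_finite Ω ty hp (nonconst h) R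

theorem entire (hp : ∀ i, Differentiable ℂ (p i)) (h : Independent Set.univ Ω ty p) :
    Curve {z | ∀ i, p i z ∉ (Ω (ty i)).lattice} Ω ty p := by
  have h1 := fin_poles hp h
  have ho : IsOpen {z | ∀ i, p i z ∉ (Ω (ty i)).lattice} := by
    have := Pool.Agent.H46AR.isOpen_of_loc h1
    rwa [compl_compl] at this
  have hc : IsConnected {z | ∀ i, p i z ∉ (Ω (ty i)).lattice} := by
    have := Pool.Agent.H46AR.conn_of_loc h1
    rwa [compl_compl] at this
  refine ⟨ho, hc.isPreconnected, hc.nonempty, fun i z _ => (hp i).analyticAt z, fun i z hz => hz i,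
    fun c a b ha hty hb => h c a b ha hty fun z _ => ?_⟩
  exact Pool.Agent.H46AR.eq_const (f := fun z => ∑ i, a i * p i z)
    (Differentiable.fun_sum fun i _ => (hp i).const_mul _) ho hc.nonempty hb z

end

/-- **The elliptic analogue of Schanuel's conjecture at all roots of almost all polynomials.** Let `Ω_1, …, Ω_q` be
lattices such that there are no homomorphisms between the elliptic curves of different lattices, and `n ≥ 1`.

(1) Let `p` be a family of `n`-tuples over a connected open set `V` as above. One can choose `2 n` of the `3 n` functions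
`p_i`, `ζ(p_i)`, `℘(p_i)` such that for every degree `g ≥ 1` and all complex numbers `ξ_0, ξ_1, …`: for all sets
`K_0, K_1, …` which are tame in `V` the chosen functions have no relations at the roots of almost all integral
polynomials of degree `g`, and for every set `K` there is a power saving for the polynomials with roots in a compact
position.

(2) Let the `p_i` be entire functions, independent in the sense above on the whole plane. One can choose `2 n` of the
functions such that for every degree `g ≥ 1` and all complex numbers `ξ_0, ξ_1, …` they have no relations at the roots of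
almost all integral polynomials of degree `g`, where all roots `x` are considered at which no `p_i(x)` is in its
lattice. -/
theorem result (n q : ℕ) (hn : 0 < n) (Ω : Fin q → PeriodPair) (hΩ : ∀ c c', c ≠ c' → NoHom (Ω c) (Ω c'))
    (ty : Fin n → Fin q) (p : Fin n → ℂ → ℂ) :
    (∀ V : Set ℂ, Curve V Ω ty p → ∃ e : Fin (2 * n) → Name n, Function.Injective e ∧
      (∀ (g : ℕ), 0 < g → ∀ (ξ : ℕ → ℂ) (K : ℕ → Set ℂ), (∀ k, Tame (K k) V) →
        AlmostAll g K (fun j => value Ω ty p (e j)) ξ) ∧
      ∀ (g : ℕ), 0 < g → ∀ (ξ : ℕ → ℂ) (K : Set ℂ), PowerSaving g K V (fun j => value Ω ty p (e j)) ξ) ∧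
    ((∀ i, Differentiable ℂ (p i)) → Independent Set.univ Ω ty p →
      ∃ e : Fin (2 * n) → Name n, Function.Injective e ∧ ∀ (g : ℕ), 0 < g → ∀ ξ : ℕ → ℂ,
        AlmostAll g (fun _ => {z | ∀ i, p i z ∉ (Ω (ty i)).lattice}) (fun j => value Ω ty p (e j)) ξ) := by
  refine ⟨fun V h => main hn h hΩ, fun hp h => ?_⟩
  obtain ⟨e, he, h1, -⟩ := main hn (entire hp h) hΩ
  refine ⟨e, he, fun g hg ξ => h1 g hg ξ _ fun _ => ?_⟩
  have h2 := Pool.Agent.X255.RH.tame_of_discrete (fin_poles hp h)
  rw [compl_compl] at h2
  exact h2

end Pool.Agent.Results.MP_2ad15a_nt.AllRootsOfPolynomials
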