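import Mathlib
import Pool.Agent.H39D.G

/-!
# The dimension of the set of all exceptions to the elliptic Schanuel conjecture

`L` is a pair of periods `ω₁, ω₂` (independent over `ℝ`), `L.lattice = ℤ ω₁ + ℤ ω₂ = Ω`, and
`℘[L]`, `L.g₂`, `L.g₃` are Mathlib's Weierstrass function and invariants, `k = ℚ ⊗ End(ℂ / Ω)`.

The conjecture says that `trdeg ℚ(g₂, g₃, pᵢ, ℘(pᵢ), ζ(pᵢ)) ≥ 2 n` for all `p₁, …, pₙ` outside `Ω`
which are linearly independent over `k`, that is, that the sets of the exceptions are empty. We show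
that the set of all exceptions `(ω₁, ω₂, p₁, …, pₙ)`, with all lattices, in the space `ℂ ^ (n + 2)` of
real dimension `2 n + 4` has Hausdorff dimension at most `2 ⌊2 n / 3⌋`, and for `n = 1` it is countable.
For one lattice the set of the exceptions `(p₁, …, pₙ)` has Hausdorff dimension at most
`2 ⌊(2 n - 2) / 3⌋`, and it is countable for `n = 1` and `n = 2`. If `d ≤ 2 n` then the same is true
for the transcendence degrees less than `d`, with the dimensions `2 ⌊d / 3⌋` and `2 ⌊(d - 2) / 3⌋`.

## The proof (in `Pool.Agent.H39D`, `Pool.Agent.H39E`, `Pool.Agent.Y685`)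

* Let `C` be a countable closed field in the sense of `Pool.Agent.Y685`. If `(L, p)` is an exception
  then `L = w L₁` with `w` in `∑ k pᵢ` and a basis of `L₁` in `C` (`small1`).
* Let `h` be the number of independent relations modulo `C` which are missing, `(w⁻¹ p)_{i ∈ I}` a
  maximal independent subfamily modulo `C` with `h` elements. By a theorem of Schneider on the numbers
  of `L₁` and of the point `1`, which lie in `C`, the rank over `C` of the numbers
  `w`, `w⁻¹ pᵢ`, `℘(w⁻¹ pᵢ)`, `ζ(w⁻¹ pᵢ)`, `i ∈ I`, is at most `d - 2`.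
* The theorem of Ax: if this rank is `2 h + m` then there are `h + 1 - m` relations over `C` between
  these `3 h + 1` functions of `h + 1` variables whose gradients are linearly independent at the point
  (`rank_ext`). So the points with this property lie in countably many submanifolds of dimension `m`
  (`dimH_rank`), by the theorem on implicit functions.
-/

set_option autoImplicit false

open Module
open scoped PeriodPair

namespace Pool.Agent.Results.MP_2ad15a_nt.DimensionOfExceptions

/-- The Weierstrass zeta function `ζ(z) = ∑ (1/(z-l) + 1/l + z/l²)`, the sum over the lattice (the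
summand of `l = 0` is `1/z`, since `1/0 = 0` in Lean). -/
noncomputable def ζ (L : PeriodPair) (z : ℂ) : ℂ :=
  ∑' l : L.lattice, (1 / (z - l) + 1 / l + z / l ^ 2)

/-- The field `k = ℚ ⊗ End(ℂ / Ω)` as a subfield of `ℂ`; see `mem_k`. -/
noncomputable abbrev k (L : PeriodPair) : IntermediateField ℚ ℂ := Pool.Agent.TH813.Ell.kL L

/-- `k` consists of the numbers `c` such that `n c` maps the lattice to itself for some `n > 0`. -/
theorem mem_k {L : PeriodPair} {c : ℂ} :
    c ∈ k L ↔ ∃ n : ℕ, 0 < n ∧ ∀ w ∈ L.lattice, (n * c) * w ∈ L.lattice := Iff.rfl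

/-- The transcendence degree over `ℚ` of the field generated by `S`. -/
noncomputable def trd (S : Set ℂ) : Cardinal := Algebra.trdeg ℚ (IntermediateField.adjoin ℚ S)

/-- The numbers `g₂, g₃, pᵢ, ℘(pᵢ), ζ(pᵢ)`. -/
def numbers (L : PeriodPair) {n : ℕ} (p : Fin n → ℂ) : Set ℂ :=
  {L.g₂, L.g₃} ∪ {x | ∃ i, x = p i ∨ x = ℘[L] (p i) ∨ x = ζ L (p i)}

/-- The points of `ℂ ^ n` outside `Ω`, independent over `k`, with a transcendence degree less than `d`.
The conjecture says that this set is empty for all `L` and all `d ≤ 2 n`. -/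
def Exceptions (L : PeriodPair) (n d : ℕ) : Set (Fin n → ℂ) :=
  {p | (∀ i, p i ∉ L.lattice) ∧ LinearIndependent (k L) p ∧ trd (numbers L p) < d}

/-- The points `((ω₁, ω₂), p)` of `ℂ ^ 2 × ℂ ^ n` such that `p` is in `Exceptions L n d` for the lattice
`L` generated by `ω₁` and `ω₂`. -/
def AllExceptions (n d : ℕ) : Set ((ℂ × ℂ) × (Fin n → ℂ)) :=
  {x | ∃ L : PeriodPair, L.ω₁ = x.1.1 ∧ L.ω₂ = x.1.2 ∧ x.2 ∈ Exceptions L n d}

theorem exceptions_eq (L : PeriodPair) (n d : ℕ) : Exceptions L n d = Pool.Agent.H39D.SL L n d := by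
  ext p
  refine and_congr_right (fun hpL => and_congr_right (fun _ => ?_))
  rw [Pool.Agent.Y685.Numb_eq hpL]
  obtain ⟨r, hr, hr'⟩ := Pool.Agent.Y685.trd_eq ℚ (Pool.Agent.Y685.Numb_finite L p)
  have h4 : trd (numbers L p) = (r : Cardinal) := hr'
  rw [h4, hr]
  norm_cast

theorem allExceptions_eq (n d : ℕ) : AllExceptions n d = Pool.Agent.H39D.SA n d := by
  ext x
  refine exists_congr (fun L => and_congr_right (fun _ => and_congr_right (fun _ => ?_)))
  rw [exceptions_eq]

/-- Let `d ≤ 2 n`. The set of all `(ω₁, ω₂, p₁, …, pₙ)` such that the `pᵢ` are outside the lattice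
`Ω = ℤ ω₁ + ℤ ω₂` and linearly independent over `k` and `trdeg ℚ(g₂, g₃, pᵢ, ℘(pᵢ), ζ(pᵢ)) < d` has
Hausdorff dimension at most `2 ⌊d / 3⌋`, and it is countable for `d ≤ 2`. For each lattice the set of
all `(p₁, …, pₙ)` with this property has Hausdorff dimension at most `2 ⌊(d - 2) / 3⌋` (`0` for
`d ≤ 2`), and it is countable for `d ≤ 4`. -/
theorem result (n d : ℕ) (hd : d ≤ 2 * n) :
    (dimH (AllExceptions n d) ≤ ((2 * (d / 3) : ℕ) : ENNReal) ∧
      (d ≤ 2 → (AllExceptions n d).Countable)) ∧
    ∀ L : PeriodPair, dimH (Exceptions L n d) ≤ ((2 * ((d - 2) / 3) : ℕ) : ENNReal) ∧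
      (d ≤ 4 → (Exceptions L n d).Countable) := by
  refine ⟨?_, fun L => ?_⟩
  · rw [allExceptions_eq]
    exact Pool.Agent.H39D.dim1 hd
  · rw [exceptions_eq]
    exact Pool.Agent.H39D.dim2 L hd

end Pool.Agent.Results.MP_2ad15a_nt.DimensionOfExceptions
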