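import Mathlib
import Pool.Agent.H39E.GP5

/-!
# Elliptic functions and generic multipliers

`L` is a pair of periods `ω₁, ω₂` (independent over `ℝ`), `L.lattice = ℤ ω₁ + ℤ ω₂ = Ω`, and
`℘[L]`, `L.g₂`, `L.g₃` are Mathlib's Weierstrass function and invariants, `k = ℚ ⊗ End(ℂ / Ω)`.

Let `F` be a countable field of complex numbers. If `u` is a number outside a countable set, then for all
lattices and all finite-dimensional `k`-subspaces `V` of `ℂ` at least `2 dim V` of the numbers
`g₂, g₃, ℘(w), ζ(w)`, `w` in `V + u V`, are algebraically independent over `F(u)`. For instance let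
`k = ℚ` and let `z₁, …, zₙ` be points which are linearly independent over `ℚ` and such that the `z_i` and
`u z_i` are not in `Ω`; then at least `2 n` of the numbers `g₂, g₃, ℘(z_i), ζ(z_i), ℘(u z_i), ζ(u z_i)` are
algebraically independent over `F(u)`.

The general result is an inequality for arbitrary finite-dimensional `k`-subspaces `V` of `ℂ` and generic
tuples `u = (u₁, …, u_r)`: if `d` is the dimension of the space over `k(u)` generated by `V` then the
transcendence degree over `F(u)` of the numbers `g₂, g₃, ℘(w), ζ(w)`, `w` in `V`, is at least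
`2 dim V - 2 d`. For the exponential function this is the theorem of Bays, Kirby and Wilkie on raising to
a generic power. The term `2 d` can be replaced by `m + d` if `m ≥ 1` bounds the dimension of the subspaces
of `V` whose quotients lie in a countable field.

## The proof (in `Pool.Agent.H39E`)

Induction on `r`, with the closed countable fields `C u` of `Pool.Agent.Y685`. The part of `V` which lies,
up to a factor, in the field of the tail of the list is treated by induction; its dimension over `k(u)` is
the same as over the smaller field (`disj`). For the rest the numbers `w, ℘(w), ζ(w)` have the rank at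
least `2 n + 1` over the closed field by Ax's theorem (`Fld.fix`), and `u₁` and the points `w` account for
at most one, respectively the dimension over `k(u)`.
-/

set_option autoImplicit false

open Module
open scoped PeriodPair

namespace Pool.Agent.Results.MP_2ad15a_nt.GenericMultipliers

/-- The Weierstrass zeta function `ζ(z) = ∑ (1/(z-l) + 1/l + z/l²)`, the sum over the lattice (the
summand of `l = 0` is `1/z`, since `1/0 = 0` in Lean). -/
noncomputable def ζ (L : PeriodPair) (z : ℂ) : ℂ :=
  ∑' l : L.lattice, (1 / (z - l) + 1 / l + z / l ^ 2)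

/-- The field `k = ℚ ⊗ End(ℂ / Ω)` as a subfield of `ℂ`; see `mem_k`. -/
noncomputable abbrev k (L : PeriodPair) : IntermediateField ℚ ℂ := Pool.Agent.TH813.Ell.kL L

/-- `k` consists of the numbers `c` such that `n c` maps the lattice to itself for some `n > 0`. -/
theorem mem_k {L : PeriodPair} {c : ℂ} :
    c ∈ k L ↔ ∃ n : ℕ, 0 < n ∧ ∀ w ∈ L.lattice, (n * c) * w ∈ L.lattice := Iff.rfl

/-- The field `k(u)` generated by `k` and the elements of the list `u`. -/
noncomputable def kAdjoin (L : PeriodPair) (u : List ℂ) : IntermediateField ℚ ℂ :=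
  k L ⊔ IntermediateField.adjoin ℚ {x | x ∈ u}

/-- The transcendence degree over `F` of the field generated by `S`. -/
noncomputable def trd (F : Type) [Field F] [Algebra F ℂ] (S : Set ℂ) : Cardinal :=
  Algebra.trdeg F (IntermediateField.adjoin F S)

/-- The numbers `g₂, g₃` and `℘(w), ζ(w)` for all `w` in `V` outside the lattice. -/
def values (L : PeriodPair) (V : Submodule (k L) ℂ) : Set ℂ :=
  {L.g₂, L.g₃} ∪ (℘[L] '' ((V : Set ℂ) \ (L.lattice : Set ℂ)) ∪
    ζ L '' ((V : Set ℂ) \ (L.lattice : Set ℂ)))

/-- `(u₁, …, u_r)` is generic: `u_i` is not in the field which belongs to the list `(u_{i+1}, …, u_r)`. -/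
def Generic (C : List ℂ → Subfield ℂ) : List ℂ → Prop
  | [] => True
  | x :: a => x ∉ C a ∧ Generic C a

/-- Countable algebraically closed fields `C a`, for all finite lists `a` of complex numbers, which
contain `F`, the elements of the list and the fields of the tails of the list. -/
def Fields (F : Type) [Field F] [Algebra F ℂ] (C : List ℂ → Subfield ℂ) : Prop :=
  (∀ a, (C a : Set ℂ).Countable) ∧ (∀ a x, IsAlgebraic (C a) x → x ∈ C a) ∧
    (∀ x a, x ∈ C (x :: a) ∧ C a ≤ C (x :: a)) ∧ ∀ x : F, algebraMap F ℂ x ∈ C []

/-- The dimension over `k(u)` of the space generated by `V`. -/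
noncomputable def dim (L : PeriodPair) (u : List ℂ) (V : Submodule (k L) ℂ) : ℕ :=
  finrank (kAdjoin L u) (Submodule.span (kAdjoin L u) (V : Set ℂ))

/-- No `k`-subspace `U` of `V` of dimension more than `m` has a multiple `c U`, `c ≠ 0`, in `K`. -/
def SpecialLE (K : Subfield ℂ) (L : PeriodPair) (V : Submodule (k L) ℂ) (m : ℕ) : Prop :=
  ∀ c : ℂ, c ≠ 0 → ∀ U ≤ V, (∀ x ∈ U, c * x ∈ K) → finrank (k L) U ≤ m

/-- The space `V + x V`. -/
noncomputable def plus (L : PeriodPair) (x : ℂ) (V : Submodule (k L) ℂ) : Submodule (k L) ℂ :=
  V ⊔ V.map (LinearMap.mulLeft (k L) x)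

/-- For every countable field `F` of complex numbers there are countable algebraically closed fields
`C a`, for all finite lists `a` of complex numbers, which contain `F`, the elements of the list and the
fields of the tails of the list, with the following properties.

(1) Let `u` be a generic list of length `r`, `V` a `k`-subspace of `ℂ` of finite dimension and `d` the
dimension over `k(u)` of the space generated by `V`. Let `m ≥ 1`, `m ≥ d`, or let `m ≥ 1` be such that no
`k`-subspace `U` of `V` of dimension more than `m` has a multiple in `C []`. Then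
`2 dim V + r ≤ trdeg_F F(u, g₂, g₃, ℘(w), ζ(w) : w ∈ V) + m + d`.

(2) Let `x` be a number outside the field `C []` and `V` a `k`-subspace of `ℂ` of finite dimension. Then
`2 dim V + 1 ≤ trdeg_F F(x, g₂, g₃, ℘(w), ζ(w) : w ∈ V + x V)`. -/
theorem result (F : Type) [Field F] [Algebra F ℂ] [Countable F] :
    ∃ C : List ℂ → Subfield ℂ, Fields F C ∧
      (∀ u : List ℂ, Generic C u → ∀ (L : PeriodPair) (V : Submodule (k L) ℂ),
        FiniteDimensional (k L) V → ∀ m : ℕ, 1 ≤ m →
        (dim L u V ≤ m ∨ SpecialLE (C []) L V m) →
        ((2 * finrank (k L) V + u.length : ℕ) : Cardinal) ≤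
          trd F ({x | x ∈ u} ∪ values L V) + ((m + dim L u V : ℕ) : Cardinal)) ∧
      ∀ x : ℂ, x ∉ C [] → ∀ (L : PeriodPair) (V : Submodule (k L) ℂ),
        FiniteDimensional (k L) V →
        ((2 * finrank (k L) V + 1 : ℕ) : Cardinal) ≤ trd F ({x} ∪ values L (plus L x V)) := by
  have hS : (Set.range (algebraMap F ℂ)).Countable := Set.countable_range _
  have hk : ∀ x : F, algebraMap F ℂ x ∈ (Pool.Agent.H39E.CG hS []).1 := fun x =>
    Pool.Agent.H39E.CG_base hS ⟨x, rfl⟩
  have hG : ∀ u : List ℂ, Generic (fun a => (Pool.Agent.H39E.CG hS a).1) u →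
      Pool.Agent.H39E.Gen (fun a => (Pool.Agent.H39E.CG hS a).1) u := by
    intro u
    induction u with
    | nil => intro _; exact trivial
    | cons x a ih => intro h; exact ⟨h.1, ih h.2⟩
  refine ⟨fun a => (Pool.Agent.H39E.CG hS a).1, ⟨fun a => (Pool.Agent.H39E.CG hS a).2.cnt,
    fun a => (Pool.Agent.H39E.CG hS a).2.alg, fun x a => ⟨Pool.Agent.H39E.CG_mem hS x a,
      Pool.Agent.H39E.CG_le hS x a⟩, hk⟩, fun u hu L V hV m hm h => ?_, fun x hx L V hV => ?_⟩
  · rcases h with h | h
    · refine (Pool.Agent.H39E.final_two hS hk u (hG u hu) L V).trans (add_le_add le_rfl ?_)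
      have h1 : 2 * dim L u V ≤ m + dim L u V := by omega
      exact_mod_cast h1
    · exact Pool.Agent.H39E.final hS hk u (hG u hu) L V m hm h
  · exact Pool.Agent.H39E.final_mult hS hk hx L V

end Pool.Agent.Results.MP_2ad15a_nt.GenericMultipliers
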