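import Mathlib
import Pool.Agent.H39E.Main

/-!
# The elliptic Schanuel conjecture without special ratios

`L` is a pair of periods `ω₁, ω₂` (independent over `ℝ`), `L.lattice = ℤ ω₁ + ℤ ω₂ = Ω`, and
`℘[L]`, `L.g₂`, `L.g₃` are Mathlib's Weierstrass function and invariants, `k = ℚ ⊗ End(ℂ / Ω)`.

The conjecture says that `trdeg ℚ(g₂, g₃, pᵢ, ℘(pᵢ), ζ(pᵢ)) ≥ 2 n` for all `p₁, …, pₙ` outside `Ω`
which are linearly independent over `k`.

There is a countable field `C` such that for `n ≥ 2` the conjecture is true for all lattices and all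
`p₁, …, pₙ` such that no two elements of `V = ∑ k pᵢ` which are independent over `k` have a quotient in
`C`. For `n = 2` this means that `p₂ / p₁` is not in `C` (`pairs`). For a number `u` outside `C` it is
true for the points `z, u z, u² z, …`, for all `z` and all lattices (`multiples`).

In general let `m` be the largest dimension of a `k`-subspace of `V` whose quotients lie in `C`. If
`m < n` then the transcendence degree is at least `2 (n - m) + 2`, and it is at least
`min (2 n) (2 (n - m) + 2 + e)` if `V` is not contained in a multiple of one of the countable fields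
`C(a₁, …, a_e)`, which depend on `e` parameters.

## The proof (in `Pool.Agent.H39E`)

* The fields are closed in the sense of `Pool.Agent.Y685`. If `j(L)` is not in `C` the inequality is
  true (`Fld.gen'`).
* Otherwise let `c L` be a lattice in `C` and `U` the part of `V` with `c U ⊆ C`. By Ax's theorem (a
  fixed curve, `Fld.fix`) the numbers of a complement have rank at least `2 (n - dim U) + 1` over `C`;
  the chain of the closed fields generated by elements of `c V` gives `2 (n - dim U) + 1 + e` (`chain`).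
* If `U` contains a point `w` outside the lattice one can choose `c = 1 / w`. By a theorem of Schneider
  (proved in `Pool.Agent.H39E.Sch`, with the theorem of Schneider and Lang in `Pool.Agent.R917.OM`) the
  numbers `g₂, g₃, ℘(1)` of the lattice `c L`, which lie in `C`, are not all algebraic.
-/

set_option autoImplicit false

open Module
open scoped PeriodPair

namespace Pool.Agent.Results.MP_2ad15a_nt.SpecialRatios

/-- The Weierstrass zeta function `ζ(z) = ∑ (1/(z-l) + 1/l + z/l²)`, the sum over the lattice (the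
summand of `l = 0` is `1/z`, since `1/0 = 0` in Lean). -/
noncomputable def ζ (L : PeriodPair) (z : ℂ) : ℂ :=
  ∑' l : L.lattice, (1 / (z - l) + 1 / l + z / l ^ 2)

/-- The field `k = ℚ ⊗ End(ℂ / Ω)` as a subfield of `ℂ`; see `mem_k`. -/
noncomputable abbrev k (L : PeriodPair) : IntermediateField ℚ ℂ := Pool.Agent.TH813.Ell.kL L

/-- `k` consists of the numbers `c` such that `n c` maps the lattice to itself for some `n > 0`. -/
theorem mem_k {L : PeriodPair} {c : ℂ} :
    c ∈ k L ↔ ∃ n : ℕ, 0 < n ∧ ∀ w ∈ L.lattice, (n * c) * w ∈ L.lattice := Iff.rfl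

/-- The transcendence degree over `ℚ` of the field generated by `S`. -/
noncomputable def trd (S : Set ℂ) : Cardinal := Algebra.trdeg ℚ (IntermediateField.adjoin ℚ S)

/-- The numbers `g₂, g₃, pᵢ, ℘(pᵢ), ζ(pᵢ)`. -/
def numbers (L : PeriodPair) {n : ℕ} (p : Fin n → ℂ) : Set ℂ :=
  {L.g₂, L.g₃} ∪ {x | ∃ i, x = p i ∨ x = ℘[L] (p i) ∨ x = ζ L (p i)}

/-- There are countable algebraically closed fields `C a ⊆ ℂ`, for all finite lists `a` of complex
numbers, which contain the elements of the list and the fields of the tails of the list, such that the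
following holds for all lattices and all `p₁, …, pₙ` outside the lattice which are linearly independent
over `k`, and for `1 ≤ m < n`. Let `V = ∑ k pᵢ`. If no `k`-subspace `U` of `V` of dimension more than `m`
has a multiple `c U` in `C []`, and if `V` has no multiple `c V` in a field `C a` with a list `a` of
length `e`, then `trdeg ℚ(g₂, g₃, pᵢ, ℘(pᵢ), ζ(pᵢ)) ≥ min (2 n) (2 (n - m) + 2 + e)`. -/
theorem result : ∃ C : List ℂ → Subfield ℂ,
    (∀ a, (C a : Set ℂ).Countable) ∧ (∀ a x, IsAlgebraic (C a) x → x ∈ C a) ∧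
    (∀ x a, x ∈ C (x :: a) ∧ C a ≤ C (x :: a)) ∧
    ∀ (L : PeriodPair) (n : ℕ) (p : Fin n → ℂ), (∀ i, p i ∉ L.lattice) →
      LinearIndependent (k L) p → ∀ m e : ℕ, 1 ≤ m → m < n →
      (∀ c : ℂ, c ≠ 0 → ∀ U ≤ Submodule.span (k L) (Set.range p),
        (∀ x ∈ U, c * x ∈ C []) → finrank (k L) U ≤ m) →
      (∀ c : ℂ, c ≠ 0 → ∀ a : List ℂ, a.length = e →
        ∃ x ∈ Submodule.span (k L) (Set.range p), c * x ∉ C a) →
      ((min (2 * n) (2 * (n - m) + 2 + e) : ℕ) : Cardinal) ≤ trd (numbers L p) := by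
  refine ⟨fun a => (Pool.Agent.H39E.CF a).1, fun a => (Pool.Agent.H39E.CF a).2.cnt,
    fun a => (Pool.Agent.H39E.CF a).2.alg, fun x a => ⟨Pool.Agent.H39E.CF_mem x a,
      Pool.Agent.H39E.CF_le x a⟩, fun L n p hpL hp m e hm hmn h1 h2 => ?_⟩
  have h3 := Pool.Agent.H39E.main hpL hp hm hmn h1 h2
  rw [Pool.Agent.Y685.Numb_eq hpL] at h3
  obtain ⟨r, hr, hr'⟩ := Pool.Agent.Y685.trd_eq ℚ (Pool.Agent.Y685.Numb_finite L p)
  have h4 : trd (numbers L p) = (r : Cardinal) := hr'
  rw [hr] at h3
  rw [h4]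
  exact_mod_cast h3

/-- The case `e = 0`, `m = 1`: the elliptic Schanuel conjecture without special ratios. -/
theorem no_special_ratios : ∃ C : Subfield ℂ, (C : Set ℂ).Countable ∧
    (∀ x, IsAlgebraic C x → x ∈ C) ∧
    ∀ (L : PeriodPair) (n : ℕ) (p : Fin n → ℂ), 2 ≤ n → (∀ i, p i ∉ L.lattice) →
      LinearIndependent (k L) p →
      (∀ x ∈ Submodule.span (k L) (Set.range p), ∀ y ∈ Submodule.span (k L) (Set.range p),
        LinearIndependent (k L) ![x, y] → y / x ∉ C) →
      ((2 * n : ℕ) : Cardinal) ≤ trd (numbers L p) := by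
  obtain ⟨C, h1, h2, -, h4⟩ := result
  refine ⟨C [], h1 [], h2 [], fun L n p hn hpL hp hr => ?_⟩
  have hfd : FiniteDimensional (k L) (Submodule.span (k L) (Set.range p)) :=
    FiniteDimensional.span_of_finite (k L) (Set.finite_range p)
  have key : ∀ c : ℂ, c ≠ 0 → ∀ U ≤ Submodule.span (k L) (Set.range p),
      (∀ x ∈ U, c * x ∈ C []) → finrank (k L) U ≤ 1 := by
    intro c hc U hU hUC
    have hfU : FiniteDimensional (k L) U := Submodule.finiteDimensional_of_le hU
    by_contra hcon
    push Not at hcon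
    let b := finBasis (k L) U
    have hb : LinearIndependent (k L) (fun i => (b i : ℂ)) :=
      b.linearIndependent.map' U.subtype (Submodule.ker_subtype _)
    have h5 := hb.comp _ (Fin.castLE_injective (show 2 ≤ finrank (k L) U by omega))
    have h6 : (fun i => (b i : ℂ)) ∘ Fin.castLE (show 2 ≤ finrank (k L) U by omega) =
        ![(b ⟨0, by omega⟩ : ℂ), (b ⟨1, by omega⟩ : ℂ)] := by
      funext i
      fin_cases i <;> rfl
    rw [h6] at h5
    refine hr _ (hU (b _).2) _ (hU (b _).2) h5 ?_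
    have h7 := div_mem (hUC _ (b ⟨1, by omega⟩).2) (hUC _ (b ⟨0, by omega⟩).2)
    rwa [mul_div_mul_left _ _ hc] at h7
  have h5 := h4 L n p hpL hp 1 0 le_rfl (by omega) key (fun c hc a ha => by
    rw [List.length_eq_zero_iff.1 ha]
    by_contra hcon
    push Not at hcon
    have h6 := key c hc _ le_rfl hcon
    rw [finrank_span_eq_card hp, Fintype.card_fin] at h6
    omega)
  refine le_trans ?_ h5
  exact_mod_cast le_min le_rfl (by omega : 2 * n ≤ 2 * (n - 1) + 2 + 0)

/-- the elements of `k` lie in all algebraically closed fields -/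
theorem k_le {L : PeriodPair} {C : Subfield ℂ} (hC : ∀ x, IsAlgebraic C x → x ∈ C) {a : ℂ}
    (ha : a ∈ k L) : a ∈ C := by
  by_contra hcon
  have htr : Transcendental (Pool.Agent.Y685.IFd C) a := fun h => hcon (hC a h)
  have hai : AlgebraicIndependent (Pool.Agent.Y685.IFd C) (fun _ : Unit => a) :=
    algebraicIndependent_unique_type_iff.2 htr
  obtain ⟨D, -, hD⟩ := Pool.Agent.TH813.Rel.exists_derF (Pool.Agent.Y685.IFd C) hai (fun _ => 1)
  have h1 := Pool.Agent.TH813.Ell.der_kL D ha
  rw [hD ()] at h1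
  exact one_ne_zero h1

/-- The case `n = 2`: all pairs of points whose quotient is outside a countable field. -/
theorem pairs : ∃ C : Subfield ℂ, (C : Set ℂ).Countable ∧ ∀ (L : PeriodPair) (p₁ p₂ : ℂ),
    p₁ ∉ L.lattice → p₂ ∉ L.lattice → p₂ / p₁ ∉ C → (4 : Cardinal) ≤ trd (numbers L ![p₁, p₂]) := by
  obtain ⟨C, h1, h2, h3⟩ := no_special_ratios
  refine ⟨C, h1, fun L p₁ p₂ hp₁ hp₂ hC => ?_⟩
  have hp0 : p₁ ≠ 0 := fun h => hp₁ (h ▸ zero_mem _)
  have hk : ∀ a : k L, (a : ℂ) ∈ C := fun a => k_le h2 a.2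
  have hsm : ∀ (a : k L) (x : ℂ), a • x = (a : ℂ) * x := fun _ _ => rfl
  have h4 := h3 L 2 ![p₁, p₂] le_rfl (by
    intro i
    fin_cases i
    · exact hp₁
    · exact hp₂) (by
    rw [LinearIndependent.pair_iff]
    intro a b hab
    rw [hsm, hsm] at hab
    have hb : (b : ℂ) = 0 := by
      by_contra hb
      apply hC
      have e1 : p₂ / p₁ = -(a : ℂ) / b := by
        field_simp
        linear_combination hab
      rw [e1]
      exact div_mem (neg_mem (hk a)) (hk b)
    rw [hb, zero_mul, add_zero] at hab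
    exact ⟨Subtype.ext ((mul_eq_zero.1 hab).resolve_right hp0), Subtype.ext hb⟩) (by
    intro x hx y hy hxy hyx
    obtain ⟨a, rfl⟩ := (Submodule.mem_span_range_iff_exists_fun (k L)).1 hx
    obtain ⟨b, rfl⟩ := (Submodule.mem_span_range_iff_exists_fun (k L)).1 hy
    simp only [Fin.sum_univ_two, hsm, Matrix.cons_val_zero, Matrix.cons_val_one] at hxy hyx
    have hx0 : (a 0 : ℂ) * p₁ + a 1 * p₂ ≠ 0 := hxy.ne_zero 0
    obtain ⟨μ, hμ⟩ : ∃ μ : ℂ, μ = ((b 0 : ℂ) * p₁ + b 1 * p₂) / ((a 0 : ℂ) * p₁ + a 1 * p₂) :=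
      ⟨_, rfl⟩
    rw [← hμ] at hyx
    have h5 : (b 0 : ℂ) * p₁ + b 1 * p₂ = μ * ((a 0 : ℂ) * p₁ + a 1 * p₂) := by
      rw [hμ, div_mul_cancel₀ _ hx0]
    by_cases h6 : (b 1 : ℂ) = μ * a 1
    · have h7 : (b 0 : ℂ) = μ * a 0 := by
        have h8 : ((b 0 : ℂ) - μ * a 0) * p₁ = 0 := by linear_combination h5 - p₂ * h6
        exact sub_eq_zero.1 ((mul_eq_zero.1 h8).resolve_right hp0)
      have hμk : μ ∈ k L := by
        by_cases ha : (a 1 : ℂ) = 0
        · have ha0 : (a 0 : ℂ) ≠ 0 := by
            intro h0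
            apply hx0
            rw [h0, ha]
            ring
          have e1 : μ = (b 0 : ℂ) / a 0 := by
            field_simp
            exact h7.symm
          rw [e1]
          exact div_mem (b 0).2 (a 0).2
        · have e1 : μ = (b 1 : ℂ) / a 1 := by
            field_simp
            exact h6.symm
          rw [e1]
          exact div_mem (b 1).2 (a 1).2
      rw [LinearIndependent.pair_iff] at hxy
      have h8 := (hxy ⟨-μ, neg_mem hμk⟩ 1 (by
        rw [hsm, one_smul, h5]
        change -μ * _ + _ = 0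
        ring)).2
      exact one_ne_zero h8
    · apply hC
      have h6' : (b 1 : ℂ) - μ * a 1 ≠ 0 := sub_ne_zero.2 h6
      have e1 : p₂ / p₁ = (μ * a 0 - b 0) / (b 1 - μ * a 1) := by
        field_simp
        linear_combination h5
      rw [e1]
      exact div_mem (sub_mem (mul_mem hyx (hk _)) (hk _))
        (sub_mem (hk _) (mul_mem hyx (hk _))))
  exact_mod_cast h4

/-- The points `z, u z, …, u ^ (n - 1) z` for all numbers `u` outside a countable field. -/
theorem multiples : ∃ C : Subfield ℂ, (C : Set ℂ).Countable ∧ ∀ (L : PeriodPair) (u z : ℂ) (n : ℕ),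
    u ∉ C → 2 ≤ n → (∀ i : Fin n, u ^ (i : ℕ) * z ∉ L.lattice) →
      ((2 * n : ℕ) : Cardinal) ≤ trd (numbers L (fun i : Fin n => u ^ (i : ℕ) * z)) := by
  classical
  obtain ⟨C, h1, h2, h3⟩ := no_special_ratios
  refine ⟨C, h1, fun L u z n hu hn hL => ?_⟩
  have hk : ∀ a : k L, (a : ℂ) ∈ C := fun a => k_le h2 a.2
  have hsm : ∀ (a : k L) (x : ℂ), a • x = (a : ℂ) * x := fun _ _ => rfl
  have htr : Transcendental C u := fun h => hu (h2 u h)
  have hz : z ≠ 0 := by
    rintro rfl
    exact hL ⟨0, by omega⟩ (by rw [mul_zero]; exact zero_mem _)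
  -- relations over the field are trivial
  have key : ∀ a : Fin n → ℂ, (∀ i, a i ∈ C) → ∑ i, a i * u ^ (i : ℕ) = 0 → ∀ i, a i = 0 := by
    intro a ha h0 i
    have h5 : (∑ j : Fin n, Polynomial.monomial (j : ℕ) (⟨a j, ha j⟩ : C)) = 0 := by
      by_contra hne
      apply htr
      refine ⟨_, hne, ?_⟩
      rw [map_sum, ← h0]
      refine Finset.sum_congr rfl (fun j _ => ?_)
      rw [Polynomial.aeval_monomial]
      rfl
    have h6 := congrArg (fun q => Polynomial.coeff q (i : ℕ)) h5
    simp only [Polynomial.finsetSum_coeff, Polynomial.coeff_monomial, Polynomial.coeff_zero] at h6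
    rw [Finset.sum_eq_single i (fun j _ hj => if_neg (fun h => hj (Fin.ext h)))
      (fun h => absurd (Finset.mem_univ i) h), if_pos rfl] at h6
    exact congrArg Subtype.val h6
  refine h3 L n (fun i : Fin n => u ^ (i : ℕ) * z) hn hL ?_ ?_
  · rw [Fintype.linearIndependent_iff]
    intro a ha i
    simp only [hsm] at ha
    refine Subtype.ext (key (fun i => (a i : ℂ)) (fun i => hk _) ?_ i)
    have h5 : (∑ i, (a i : ℂ) * u ^ (i : ℕ)) * z = 0 := by
      rw [Finset.sum_mul, ← ha]
      exact Finset.sum_congr rfl (fun i _ => by ring)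
    exact (mul_eq_zero.1 h5).resolve_right hz
  · intro x hx y hy hxy hyx
    obtain ⟨a, rfl⟩ := (Submodule.mem_span_range_iff_exists_fun (k L)).1 hx
    obtain ⟨b, rfl⟩ := (Submodule.mem_span_range_iff_exists_fun (k L)).1 hy
    simp only [hsm] at hxy hyx
    have hx0 : (∑ i, (a i : ℂ) * (u ^ (i : ℕ) * z)) ≠ 0 := hxy.ne_zero 0
    obtain ⟨μ, hμ⟩ : ∃ μ : ℂ, μ = (∑ i, (b i : ℂ) * (u ^ (i : ℕ) * z)) /
      (∑ i, (a i : ℂ) * (u ^ (i : ℕ) * z)) := ⟨_, rfl⟩
    rw [← hμ] at hyx
    have h5 : (∑ i, (b i : ℂ) * (u ^ (i : ℕ) * z)) = μ * ∑ i, (a i : ℂ) * (u ^ (i : ℕ) * z) := by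
      rw [hμ, div_mul_cancel₀ _ hx0]
    have h6 := key (fun i => (b i : ℂ) - μ * a i)
      (fun i => sub_mem (hk _) (mul_mem hyx (hk _))) (by
        have h7 : (∑ i, ((b i : ℂ) - μ * a i) * u ^ (i : ℕ)) * z = 0 := by
          rw [Finset.mul_sum, ← sub_eq_zero, ← Finset.sum_sub_distrib] at h5
          rw [Finset.sum_mul, ← h5]
          exact Finset.sum_congr rfl (fun i _ => by ring)
        exact (mul_eq_zero.1 h7).resolve_right hz)
    obtain ⟨i, hi⟩ : ∃ i, (a i : ℂ) ≠ 0 := by
      by_contra hcon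
      push Not at hcon
      apply hx0
      exact Finset.sum_eq_zero (fun i _ => by rw [hcon i, zero_mul])
    have hμk : μ ∈ k L := by
      have e1 : μ = (b i : ℂ) / a i := by
        field_simp
        linear_combination -(h6 i)
      rw [e1]
      exact div_mem (b i).2 (a i).2
    rw [LinearIndependent.pair_iff] at hxy
    have h8 := (hxy ⟨-μ, neg_mem hμk⟩ 1 (by
      rw [hsm, one_smul, h5]
      change -μ * _ + _ = 0
      ring)).2
    exact one_ne_zero h8

end Pool.Agent.Results.MP_2ad15a_nt.SpecialRatios
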